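import Pool.Agent.MWLQ.StmtsA

/-!
# MWLQ, row BTS (MP_23468a_al): the special form with at most `N` lights

The proof follows the one of helper69 for row BTS of MWLE.
-/

set_option autoImplicit false

namespace Pool.Agent.MWLQ.H62B

open Pool.Agent.Helper14_MV
open Pool.Agent.Helper2_MV (RR)
open Pool.Agent.MWK (pre)
open Pool.Agent.MWGN (nn Tau gh)
open Pool.Agent.MWGQ (pw Z Gn E0 A0 P0)
open Pool.Agent.MWLE (pin sep con tl tll Sg t1 Fc Fb Fy Fx Fu Fz rz sf k0)
open Pool.Agent.MWLQ

variable {n : ℕ} {β : FIC}

theorem tr {a b c : List ℕ} (h : RR β a b) (h' : RR β b c) : RR β a c := β.trans h h'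

theorem sy {a b : List ℕ} (h : RR β a b) : RR β b a := β.symm h

theorem rf (a : List ℕ) : RR β a a := β.refl _

/-- an identity in a context -/
theorem ctx {u v : List ℕ} (h : RR β u v) (p q : List ℕ) : RR β (p ++ (u ++ q)) (p ++ (v ++ q)) :=
  Helper2_MV.RR.append (rf p) (Helper2_MV.RR.append h (rf q))

theorem rr_flatMap {f g : ℕ → List ℕ} : ∀ (l : List ℕ), (∀ i ∈ l, RR β (f i) (g i)) →
    RR β (l.flatMap f) (l.flatMap g)
  | [], _ => rf _
  | a :: l, h => by
    rw [List.flatMap_cons, List.flatMap_cons]
    exact Helper2_MV.RR.append (h a (by simp))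
      (rr_flatMap l (fun i hi => h i (List.mem_cons_of_mem _ hi)))

theorem pw_one (m x : ℕ) : pw m [x] = List.replicate m x := by
  unfold pw
  induction m with
  | zero => rfl
  | succ m ih => rw [List.replicate_succ, List.flatten_cons, ih]; rfl

/-- a letter which occurs before -/
theorem dup (hP : MWGQ.PwxStmt) (hG : Gn n β) {A : List ℕ} {x : ℕ} (hx : x ∈ A) (R : List ℕ) :
    RR β (A ++ x :: R) (A ++ (List.replicate (n + 1) x ++ R)) := by
  obtain ⟨A₁, A₂, rfl⟩ := List.append_of_mem hx
  have h := (hP n β hG).2.1 [x] A₂ 1 (n + 1) (le_refl _) (by omega) (by simp [Nat.ModEq])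
  rw [pw_one, pw_one] at h
  have h2 := ctx h A₁ R
  simpa only [List.append_assoc, List.cons_append, List.nil_append, List.replicate_one] using h2

/-- a letter which occurs before moves over a word of powers -/
theorem mv (hP : MWGQ.PwxStmt) (hD : DdcStmt) (hG : Gn n β) {A : List ℕ} {x : ℕ} (hx : x ∈ A)
    (u R : List ℕ) : RR β (A ++ x :: (dn n u ++ R)) (A ++ (dn n u ++ x :: R)) := by
  have hn : 1 ≤ n := hG.pos
  have h1 := dup hP hG hx (dn n u ++ R)
  have h2 := (hD n β hG u [x] A R).1 (n + 1) (by omega)
  rw [pw_one] at h2
  have h3 := dup hP hG (A := A ++ dn n u) (List.mem_append_left _ hx) R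
  simp only [List.append_assoc] at h3
  exact tr h1 (tr (sy h2) (sy h3))

theorem dn_snoc (l : List ℕ) (c : ℕ) : dn n (l ++ [c]) = dn n l ++ List.replicate (n + 1) c := by
  simp [dn]

/-- the blocks -/
theorem dec (Q : ℕ → Bool) (v : List ℕ) : ∃ (N : ℕ) (C : ℕ → List ℕ) (z : ℕ → ℕ) (e : List ℕ),
    dq n Q v = (List.range N).flatMap (fun i => dn n (C i) ++ [z i]) ++ dn n e ∧
      v.filter Q = (List.range N).map z := by
  induction v using List.reverseRecOn with
  | nil => exact ⟨0, fun _ => [], fun _ => 0, [], rfl, rfl⟩
  | append_singleton v c ih =>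
    obtain ⟨N, C, z, e, h1, h2⟩ := ih
    have hd : dq n Q (v ++ [c]) = dq n Q v ++ (if Q c then [c] else List.replicate (n + 1) c) := by
      simp [dq]
    cases hc : Q c with
    | true =>
      refine ⟨N + 1, fun i => if i = N then e else C i, fun i => if i = N then c else z i, [],
        ?_, ?_⟩
      · rw [hd, h1, hc, List.range_succ, List.flatMap_append]
        have e1 : (List.range N).flatMap (fun i => dn n (if i = N then e else C i) ++
            [if i = N then c else z i]) =
            (List.range N).flatMap (fun i => dn n (C i) ++ [z i]) := by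
          apply List.flatMap_congr
          intro i hi
          have : i ≠ N := by
            have := List.mem_range.1 hi
            omega
          rw [if_neg this, if_neg this]
        rw [e1]
        simp [dn]
      · rw [List.filter_append, h2, List.range_succ, List.map_append]
        have e1 : (List.range N).map (fun i => if i = N then c else z i) =
            (List.range N).map z := by
          apply List.map_congr_left
          intro i hi
          have : i ≠ N := by
            have := List.mem_range.1 hi
            omega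
          rw [if_neg this]
        rw [e1]
        simp [hc]
    | false =>
      refine ⟨N, C, z, e ++ [c], ?_, ?_⟩
      · rw [hd, h1, hc, dn_snoc]
        simp
      · rw [List.filter_append, h2]
        simp [hc]

/-- **BTS** -/
theorem bts (hP : MWGQ.PwxStmt) (hT : MWLE.TexStmt) (hD : DdcStmt) : BtsStmt := by
  intro n β hG M hLE Q p v q x hn hnd hq
  have hn1 : 1 ≤ n := hG.pos
  obtain ⟨N, C, z, e, h1, h2⟩ := dec (n := n) Q v
  rw [h1]
  have hmem : ∀ i < N, z i ∈ q := by
    intro i hi
    have h3 : z i ∈ v.filter Q := by
      rw [h2]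
      exact List.mem_map_of_mem (List.mem_range.2 hi)
    rw [List.mem_filter] at h3
    exact hq _ h3.1 h3.2
  have hinj : ∀ i < N, ∀ j < N, z i = z j → i = j := by
    rw [h2] at hnd
    intro i hi j hj hij
    exact List.inj_on_of_nodup_map hnd (List.mem_range.2 hi) (List.mem_range.2 hj) hij
  have hN : N ≤ M := by
    have : (v.filter Q).length = N := by rw [h2]; simp
    omega
  cases N with
  | zero =>
    simp only [List.range_zero, List.flatMap_nil, List.nil_append]
    have k1 := sy (mv hP hD hG (A := p ++ [x]) (x := x) (by simp) e q)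
    have k2 := ctx ((hP n β hG).1 [x] 2 (n + 2) (le_refl _) (by omega)
      (by simp [Nat.ModEq])) p (dn n e ++ q)
    rw [pw_one, pw_one] at k2
    have k3 := mv hP hD hG (A := p ++ List.replicate (n + 1) x) (x := x)
      (List.mem_append_right _ (List.mem_replicate.2 ⟨by omega, rfl⟩)) e q
    have e1 : (p ++ [x]) ++ x :: (dn n e ++ q) = p ++ (List.replicate 2 x ++ (dn n e ++ q)) := by
      simp [List.replicate_succ]
    have e2 : (p ++ List.replicate (n + 1) x) ++ x :: (dn n e ++ q) =
        p ++ (List.replicate (n + 2) x ++ (dn n e ++ q)) := by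
      rw [List.replicate_succ' (n := n + 1)]
      simp
    rw [e1] at k1
    rw [e2] at k3
    have k4 := tr k1 (tr k2 k3)
    simpa only [List.append_assoc, List.cons_append, List.nil_append] using k4
  | succ m =>
    obtain ⟨τ, S, rest, t1, t3⟩ := hT m z (dn n e ++ q)
      (fun i hi j hj hij => hinj i (by omega) j (by omega) hij)
      (fun i hi => List.mem_append_right _ (hmem i (by omega)))
    have hle := hLE m (by omega) τ t1 [x] S (fun i => [z i]) (fun i => dn n (C i))
    rw [pw_one] at hle
    have h3 : RR β ((List.range (m + 1)).flatMap (fun i => dn n (C i) ++ [z i]))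
        (lw n (fun i => [z i]) (fun i => dn n (C i)) (m + 1)) := by
      unfold lw
      apply rr_flatMap
      intro i _
      exact (hD n β hG (C i) [] [] [z i]).2.1
    have form : ∀ A : List ℕ, x ∈ A →
        RR β (A ++ ((List.range (m + 1)).flatMap (fun i => dn n (C i) ++ [z i]) ++
          (dn n e ++ x :: q)))
        (A ++ (lw n (fun i => [z i]) (fun i => dn n (C i)) (m + 1) ++
          ([x] ++ (τ.flatMap (fun i => S i ++ [z i]) ++ rest)))) := by
      intro A hA
      have k1 := sy (mv hP hD hG
        (A := A ++ (List.range (m + 1)).flatMap (fun i => dn n (C i) ++ [z i]))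
        (x := x) (List.mem_append_left _ hA) e q)
      rw [t3] at k1
      have k2 := ctx h3 A ([x] ++ (τ.flatMap (fun i => S i ++ [z i]) ++ rest))
      simp only [List.append_assoc, List.cons_append, List.nil_append] at k1 k2 ⊢
      exact tr k1 k2
    have f1 := form (p ++ [x]) (by simp)
    have f2 := form (p ++ List.replicate (n + 1) x)
      (List.mem_append_right _ (List.mem_replicate.2 ⟨by omega, rfl⟩))
    have k3 := ctx hle p rest
    simp only [List.append_assoc, List.cons_append, List.nil_append] at f1 f2 k3 ⊢
    exact tr f1 (tr k3 (sy f2))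

end Pool.Agent.MWLQ.H62B
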