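import Pool.Agent.MWLQ.StmtsB

/-!
# MWLQ, row PEN (MP_23468a_al): the light end pentagon for period `n`
-/

set_option autoImplicit false

namespace Pool.Agent.MWLQ.H62

open Pool.Agent.Helper14_MV
open Pool.Agent.Helper2_MV (RR)
open Pool.Agent.MWK (pre)
open Pool.Agent.MWF (gaml le_gaml gaml_keep RR_gaml pent)
open Pool.Agent.MWGN (nn Tau gh)
open Pool.Agent.MWGQ (pw Z Gn E0 A0 P0)
open Pool.Agent.MWLE (pin sep con tl tll Sg t1 Fc Fb Fy Fx Fu Fz rz sf k0)
open Pool.Agent.MWLQ

theorem kk_keep {n : ℕ} {β : FIC} {σ : List ℕ} {m e : ℕ} {u v : List ℕ} (h : RR β u v)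
    (hu : KK n β σ m e u) : KK n β σ m e v := by
  have h1 : RR β (u.flatMap (psi n e)) (v.flatMap (psi n e)) := Helper2_MV.RR.sub _ h
  exact β.trans (β.symm h1) hu

/-- the letter `0` with the exponent `n + 1` -/
def dz (n c : ℕ) : List ℕ := if c = 0 then List.replicate (n + 1) 0 else [c]

theorem dz_id (n : ℕ) : ∀ l : List ℕ, 0 ∉ l → l.flatMap (dz n) = l
  | [], _ => rfl
  | a :: l, h => by
    have ha : a ≠ 0 := fun h' => h (by rw [h']; exact List.mem_cons_self)
    rw [List.flatMap_cons, dz_id n l (fun h' => h (List.mem_cons_of_mem _ h'))]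
    simp [dz, ha]

theorem zero_rep {k c : ℕ} (hc : c ≠ 0) : 0 ∉ List.replicate k c := fun h =>
  hc (List.eq_of_mem_replicate h).symm

theorem zero_cp (n s k : ℕ) : 0 ∉ cp n s k := by
  intro h
  unfold cp at h
  rw [List.mem_flatMap] at h
  obtain ⟨i, _, h⟩ := h
  rcases List.mem_cons.1 h with h | h
  · simp only [pin] at h
    omega
  · exact zero_rep (by simp only [con]; omega) h

theorem zero_tl (σ : List ℕ) : 0 ∉ tl σ := by
  intro h
  unfold tl at h
  rw [List.mem_flatMap] at h
  obtain ⟨i, _, h⟩ := h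
  simp only [List.mem_cons, List.not_mem_nil, or_false, pin, sep] at h
  omega

theorem zero_N0 (n m : ℕ) : 0 ∉ N0 n m := by
  intro h
  unfold N0 at h
  rcases List.mem_cons.1 h with h | h
  · omega
  rcases List.mem_append.1 h with h | h
  · exact zero_rep (by simp only [con]; omega) h
  rcases List.mem_cons.1 h with h | h
  · simp only [pin] at h
    omega
  · exact zero_cp _ _ _ h

theorem zero_Nx (n m : ℕ) (g : Bool) : 0 ∉ Nx n m g := by
  intro h
  unfold Nx at h
  rcases List.mem_append.1 h with h | h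
  · exact zero_rep (by simp only [con]; omega) h
  rcases List.mem_append.1 h with h | h
  · cases g
    · simp at h
    · exact zero_rep (by omega) h
  rcases List.mem_cons.1 h with h | h
  · simp only [pin] at h; omega
  rcases List.mem_cons.1 h with h | h
  · omega
  rcases List.mem_append.1 h with h | h
  · exact zero_cp _ _ _ h
  · simp only [List.mem_cons, List.not_mem_nil, or_false, pin] at h
    omega

theorem pw_zero (m : ℕ) : pw m [0] = List.replicate m 0 := by
  unfold pw
  induction m with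
  | zero => rfl
  | succ m ih => rw [List.replicate_succ, List.flatten_cons, ih]; rfl

/-- `0 u 0 ~ 0 u 0^(n+1)` -/
theorem gm' (hP : MWGQ.PwxStmt) {n : ℕ} {β : FIC} (hG : Gn n β) (u : List ℕ) :
    RR β ([0] ++ (u ++ [0])) ([0] ++ (u ++ List.replicate (n + 1) 0)) := by
  have h := (hP n β hG).2.1 [0] u 1 (n + 1) (le_refl _) (by omega) (by simp [Nat.ModEq])
  rw [pw_zero, pw_zero] at h
  exact h

theorem wd_sub (n : ℕ) (σ : List ℕ) (m : ℕ) (g : Bool) : (wd n σ m false g).flatMap (dz n) =
    (N0 n m ++ List.replicate n 0) ++ (([0] ++ (Nx n m g ++ List.replicate (n + 1) 0)) ++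
      tl σ) := by
  unfold wd wb
  rw [List.flatMap_append, List.flatMap_append, List.flatMap_append, List.flatMap_append,
    dz_id n _ (zero_N0 n m), dz_id n _ (zero_Nx n m g), dz_id n _ (zero_tl σ)]
  simp [dz, List.replicate_succ']

theorem wd_true (n : ℕ) (σ : List ℕ) (m : ℕ) (g : Bool) : wd n σ m true g =
    (N0 n m ++ List.replicate n 0) ++ (([0] ++ (Nx n m g ++ [0])) ++ tl σ) := by
  unfold wd wb
  simp [List.replicate_succ']

theorem pen (hC : ClcStmt) (hS : MWLE.SigStmt) (hX : CpxStmt) (hL : LerStmt)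
    (hP : MWGQ.PwxStmt) : PenStmt := by
  intro n β hM hG hE hF m τ hT hB
  by_contra hLE
  obtain ⟨σ, hσ⟩ := hS τ m hT
  have hc := fun f p q => hC n β hG hE hF σ τ m hT hσ hB hLE f p q
  obtain ⟨K, hKd⟩ : ∃ K : List ℕ → Prop, K = fun w => KK n β σ m 1 w ∧ KK n β σ m 0 w :=
    ⟨_, rfl⟩
  have bK : β ≤ gaml K := le_gaml fun u v h hu => by
    rw [hKd] at hu ⊢
    exact ⟨kk_keep h hu.1, kk_keep h hu.2⟩
  have bσ : β ≤ gaml (KK n β σ m 1) := le_gaml fun u v h hu => kk_keep h hu
  have bτ : β ≤ gaml (KK n β σ m 0) := le_gaml fun u v h hu => kk_keep h hu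
  have bρ : β ≤ FIC.inf (gaml K) (gaml (KK n β σ m 0)) := fun u v h => ⟨bK u v h, bτ u v h⟩
  have s1 : RR (gaml (KK n β σ m 1)) (wd n σ m false false) (wd n σ m false true) :=
    RR_gaml fun f p q => by
      rw [List.append_assoc, List.append_assoc]
      exact (hc f p q).1
  have s2 : RR (gaml (KK n β σ m 1)) (wd n σ m true false) (wd n σ m true true) := by
    have h := Helper2_MV.RR.sub (dz n) s1
    have e : ∀ g : Bool, RR (gaml (KK n β σ m 1)) (wd n σ m true g)
        ((wd n σ m false g).flatMap (dz n)) := by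
      intro g
      rw [wd_sub, wd_true]
      apply bσ
      exact (Helper2_MV.RR.refl (β := β) _).append
        ((gm' hP hG _).append (Helper2_MV.RR.refl _))
    exact FIC.trans _ (e false) (FIC.trans _ h (FIC.symm _ (e true)))
  have t1 : RR (gaml (KK n β σ m 0)) (wd n σ m false false) (wd n σ m true false) :=
    RR_gaml fun f p q => by
      rw [List.append_assoc, List.append_assoc]
      exact (hc f p q).2.1 false
  have t2 : RR (gaml (KK n β σ m 0)) (wd n σ m false true) (wd n σ m true true) :=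
    RR_gaml fun f p q => by
      rw [List.append_assoc, List.append_assoc]
      exact (hc f p q).2.1 true
  have r1 : RR (gaml K) (wd n σ m false true) (wd n σ m true true) :=
    RR_gaml fun f p q => by
      rw [hKd, List.append_assoc, List.append_assoc]
      exact (hc f p q).2.2
  have r2 : RR (FIC.inf (gaml K) (gaml (KK n β σ m 0))) (wd n σ m false true)
      (wd n σ m true true) := ⟨r1, t2⟩
  have hs : RR (FIC.sup (FIC.inf (gaml K) (gaml (KK n β σ m 0))) (gaml (KK n β σ m 1)))
      (wd n σ m false false) (wd n σ m true false) := by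
    have a1 := FIC.le_sup_right (FIC.inf (gaml K) (gaml (KK n β σ m 0)))
      (gaml (KK n β σ m 1)) _ _ s1
    have a2 := FIC.le_sup_left (FIC.inf (gaml K) (gaml (KK n β σ m 0)))
      (gaml (KK n β σ m 1)) _ _ r2
    have a3 := FIC.le_sup_right (FIC.inf (gaml K) (gaml (KK n β σ m 0)))
      (gaml (KK n β σ m 1)) _ _ s2
    exact FIC.trans _ a1 (FIC.trans _ a2 (FIC.symm _ a3))
  have hle : FIC.inf (gaml K) (gaml (KK n β σ m 0)) ≤ gaml (KK n β σ m 0) := fun u v h => h.2
  have hw : K (wd n σ m false false) := by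
    rw [hKd]
    exact ⟨Helper2_MV.RR.refl _, Helper2_MV.RR.refl _⟩
  have h3 := pent hM bρ bσ bτ hle (P := K) (fun u v h hu => (gaml_keep h.1).1 hu)
    (fun u v hσ hτ hu => by
      rw [hKd] at hu ⊢
      exact ⟨(gaml_keep hσ).1 hu.1, (gaml_keep hτ).1 hu.2⟩) hs t1 hw
  rw [hKd] at h3
  have h4 : RR β ((wd n σ m true false).flatMap (psi n 1))
    ((wd n σ m false false).flatMap (psi n 1)) := h3.1
  have h5 := Helper2_MV.RR.filter (Fx m) h4
  rw [hX n σ τ m hσ true, hX n σ τ m hσ false] at h5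
  apply hLE
  refine hL n β hG m τ hT 0 (fun i => sep (i + (m + 2))) (fun i => pin (i + (m + 2)))
    (fun i => con (i + (m + 1))) ?_ (β.symm h5)
  have hinj : ∀ a b : ℕ, Function.Injective (fun i : ℕ => 5 * (i + a) + b) := by
    intro a b i j h
    simp only at h
    omega
  refine List.nodup_cons.2 ⟨?_, List.nodup_append.2 ⟨List.nodup_range.map (hinj _ _),
    List.nodup_append.2 ⟨List.nodup_range.map (hinj _ _), List.nodup_range.map (hinj _ _), ?_⟩, ?_⟩⟩
  · simp only [List.mem_append, List.mem_map, sep, pin, con]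
    rintro (⟨i, _, h⟩ | ⟨i, _, h⟩ | ⟨i, _, h⟩) <;> omega
  · intro a ha b hb
    simp only [List.mem_map, pin, con] at ha hb
    obtain ⟨i, _, rfl⟩ := ha
    obtain ⟨j, _, rfl⟩ := hb
    omega
  · intro a ha b hb
    simp only [List.mem_append, List.mem_map, pin, con, sep] at ha hb
    obtain ⟨i, _, rfl⟩ := ha
    rcases hb with ⟨j, _, rfl⟩ | ⟨j, _, rfl⟩ <;> omega

end Pool.Agent.MWLQ.H62
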